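import Pool.Agent.Y987.SZ.FormsU

set_option autoImplicit false

/-!
# Four almost primes between the squares of consecutive primes
-/

namespace Pool.Agent.Results.MP_739ba1_nt.FourAlmostPrimes

/-- the primes in increasing order, `p 0 = 2` -/
noncomputable def p (n : ℕ) : ℕ := Nat.nth Nat.Prime n

/-- The `m`, `0 < m < 2 p n`, for which none of the numbers `p i * p j + m`, `p i * p j - m`,
`n ≤ i ≤ j ≤ n + h`, has a prime factor `≤ (2 p n - 1) ^ κ`. -/
def Common (n h : ℕ) (κ : ℝ) : Set ℕ :=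
  {m | 0 < m ∧ m < 2 * p n ∧ ∀ i j, n ≤ i → i ≤ j → j ≤ n + h → ∀ q : ℕ, q.Prime →
    (q ∣ p i * p j + m ∨ q ∣ p i * p j - m) → ((2 * p n - 1 : ℕ) : ℝ) ^ κ < q}

/-- `m` is a term of a progression of `t` terms of `S` with a difference `d`, `1 ≤ d ≤ L`. -/
def InProgression (t : ℕ) (L : ℝ) (S : Set ℕ) (m : ℕ) : Prop :=
  ∃ a d : ℕ, 1 ≤ d ∧ (d : ℝ) ≤ L ∧ (∀ j < t, a + j * d ∈ S) ∧ ∃ j < t, m = a + j * d

open Finset Filter
open Pool.Agent.Y987.SZ

lemma p_prime (n : ℕ) : (p n).Prime := Nat.prime_nth_prime n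

lemma p_ge (n : ℕ) : n + 2 ≤ p n := Nat.add_two_le_nth_prime n

lemma p_mono : StrictMono p := Nat.nth_strictMono Nat.infinite_setOfPred_prime

lemma p_succ_le (n : ℕ) : p (n + 1) ≤ 2 * p n := by
  obtain ⟨q, hq, h1, h2⟩ := Nat.exists_prime_lt_and_le_two_mul (p n) (p_prime n).ne_zero
  refine le_trans ?_ h2
  have h3 : p (Nat.count Nat.Prime q) = q := Nat.nth_count hq
  have h4 : n < Nat.count Nat.Prime q := by
    rw [← h3] at h1
    exact p_mono.lt_iff_lt.1 h1
  calc p (n + 1) ≤ p (Nat.count Nat.Prime q) := p_mono.monotone h4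
    _ = q := h3

lemma p_add_le (n h : ℕ) : p (n + h) ≤ 2 ^ h * p n := by
  induction h with
  | zero => simp
  | succ h ih =>
    calc p (n + (h + 1)) ≤ 2 * p (n + h) := p_succ_le (n + h)
      _ ≤ 2 * (2 ^ h * p n) := by omega
      _ = 2 ^ (h + 1) * p n := by ring

/-- the constant terms -/
noncomputable def ct (n h : ℕ) (z : Sym2 (Fin (h + 1))) : ℕ :=
  Sym2.lift ⟨fun i j : Fin (h + 1) => p (n + i) * p (n + j), fun _ _ => mul_comm _ _⟩ z

lemma ct_mk (n h : ℕ) (i j : Fin (h + 1)) : ct n h s(i, j) = p (n + i) * p (n + j) := rfl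

lemma ct_ge (n h : ℕ) (z : Sym2 (Fin (h + 1))) : p n * p n ≤ ct n h z := by
  induction z with
  | _ i j =>
    rw [ct_mk]
    exact Nat.mul_le_mul (p_mono.monotone (by omega)) (p_mono.monotone (by omega))

lemma card_eq (h : ℕ) : Fintype.card (Bool × Sym2 (Fin (h + 1))) = (h + 1) * (h + 2) := by
  rw [Fintype.card_prod, Fintype.card_bool, Sym2.card, Fintype.card_fin, Nat.choose_two_right]
  have := Nat.even_mul_succ_self (h + 1)
  have h2 : (h + 1 + 1) * (h + 1 + 1 - 1) = (h + 1) * (h + 1 + 1) := by simp [mul_comm]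
  rw [h2, Nat.mul_div_cancel' this.two_dvd]

/-- the signs -/
def sg (h : ℕ) (b : Bool × Sym2 (Fin (h + 1))) : ℤ := if b.1 then 1 else -1

/-- the constants -/
noncomputable def cc (n h : ℕ) (b : Bool × Sym2 (Fin (h + 1))) : ℤ := ((ct n h b.2 : ℕ) : ℤ)

lemma sg_signs (h : ℕ) (b : Bool × Sym2 (Fin (h + 1))) : sg h b = 1 ∨ sg h b = -1 := by
  unfold sg
  split_ifs
  · exact Or.inl rfl
  · exact Or.inr rfl

lemma big (n : ℕ) {m : ℕ} (hm : m < 2 * p n) : m < p n * p n := by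
  have := p_ge n
  have h2 := (p_prime n).two_le
  calc m < 2 * p n := hm
    _ ≤ p n * p n := Nat.mul_le_mul_right _ h2

lemma common_eq (n h : ℕ) (κ : ℝ) : Common n h κ = RU (sg h) (cc n h) (2 * p n - 1)
    (((2 * p n - 1 : ℕ) : ℝ) ^ κ) := by
  ext m
  have hp0 := (p_prime n).pos
  have hplus : ∀ z : Sym2 (Fin (h + 1)), ∀ q : ℕ,
      ((q : ℤ) ∣ sg h (true, z) * (m : ℤ) + cc n h (true, z) ↔ q ∣ ct n h z + m) := by
    intro z q
    have : (sg h (true, z) * (m : ℤ) + cc n h (true, z)) = ((ct n h z + m : ℕ) : ℤ) := by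
      unfold sg cc
      rw [if_pos rfl, Nat.cast_add]
      ring
    rw [this]
    exact Int.natCast_dvd_natCast
  have hminus : m < 2 * p n → ∀ z : Sym2 (Fin (h + 1)), ∀ q : ℕ,
      ((q : ℤ) ∣ sg h (false, z) * (m : ℤ) + cc n h (false, z) ↔ q ∣ ct n h z - m) := by
    intro hm z q
    have h1 : m ≤ ct n h z := (big n hm).le.trans (ct_ge n h z)
    have : (sg h (false, z) * (m : ℤ) + cc n h (false, z)) = ((ct n h z - m : ℕ) : ℤ) := by
      unfold sg cc
      rw [if_neg (by simp), Nat.cast_sub h1]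
      ring
    rw [this]
    exact Int.natCast_dvd_natCast
  constructor
  · rintro ⟨h1, h2, h3⟩
    refine ⟨h1, by omega, ?_⟩
    intro q hq hqy ⟨b, z⟩ hd
    -- the two indices in increasing order
    have h4 : ∀ z : Sym2 (Fin (h + 1)), (q ∣ ct n h z + m ∨ q ∣ ct n h z - m) →
        ((2 * p n - 1 : ℕ) : ℝ) ^ κ < q := by
      intro z
      induction z with
      | _ i j =>
        rw [ct_mk]
        intro hd
        rcases le_total i j with hij | hij
        · exact h3 (n + i) (n + j) (by omega) (by have : (i : ℕ) ≤ j := hij; omega) (by omega) q hq hd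
        · refine h3 (n + j) (n + i) (by omega) (by have : (j : ℕ) ≤ i := hij; omega) (by omega) q hq ?_
          rw [mul_comm (p (n + j))]
          exact hd
    cases b with
    | true =>
      have := h4 z (Or.inl ((hplus z q).1 hd))
      linarith
    | false =>
      have := h4 z (Or.inr ((hminus h2 z q).1 hd))
      linarith
  · rintro ⟨h1, h2, h3⟩
    have h2' : m < 2 * p n := by omega
    refine ⟨h1, h2', ?_⟩
    intro i j hi hij hj q hq hd
    by_contra hcon
    push Not at hcon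
    obtain ⟨i', rfl⟩ : ∃ i', i = n + i' := ⟨i - n, by omega⟩
    obtain ⟨j', rfl⟩ : ∃ j', j = n + j' := ⟨j - n, by omega⟩
    have e : ct n h s((⟨i', by omega⟩ : Fin (h + 1)), (⟨j', by omega⟩ : Fin (h + 1))) =
        p (n + i') * p (n + j') := rfl
    rcases hd with hd | hd
    · apply h3 q hq hcon (true, s((⟨i', by omega⟩ : Fin (h + 1)), (⟨j', by omega⟩ : Fin (h + 1))))
      rw [hplus, e]
      exact hd
    · apply h3 q hq hcon (false, s((⟨i', by omega⟩ : Fin (h + 1)), (⟨j', by omega⟩ : Fin (h + 1))))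
      rw [hminus h2', e]
      exact hd

lemma adm (n h : ℕ) (hn : (h + 1) * (h + 2) < p n) : ∀ q : ℕ, q.Prime → q ≤ (h + 1) * (h + 2) →
    ∃ x : ℕ, ∀ i, ¬ (q : ℤ) ∣ sg h i * x + cc n h i := by
  intro q hq hqr
  refine ⟨0, ?_⟩
  rintro ⟨b, z⟩ hd
  have h1 : q ∣ ct n h z := by
    have : (sg h (b, z) * ((0 : ℕ) : ℤ) + cc n h (b, z)) = ((ct n h z : ℕ) : ℤ) := by
      unfold cc
      simp
    rw [this] at hd
    exact_mod_cast hd
  have h2 : ∀ z : Sym2 (Fin (h + 1)), ¬ q ∣ ct n h z := by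
    intro z
    induction z with
    | _ i j =>
      rw [ct_mk]
      intro hd
      have h3 : ∀ i : Fin (h + 1), ¬ q ∣ p (n + i) := by
        intro i hd
        have h4 := (Nat.prime_dvd_prime_iff_eq hq (p_prime _)).1 hd
        have h5 : p n ≤ p (n + i) := p_mono.monotone (by omega)
        omega
      rcases (Nat.Prime.dvd_mul hq).1 hd with h4 | h4
      · exact h3 i h4
      · exact h3 j h4
  exact h2 z h1

/-- the geometry: four different numbers between the squares of consecutive primes -/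
lemma between {n m i : ℕ} (hn : 1 ≤ n) (hi : n ≤ i) (hm0 : 0 < m) (hm : m < 2 * p n)
    (hpar : m % 2 = 0) :
    p i ^ 2 < p i ^ 2 + m ∧ p i ^ 2 + m < p i * p (i + 1) ∧
    p i ^ 2 < p i * p (i + 1) - m ∧ p i * p (i + 1) - m < p i * p (i + 1) ∧
    p i * p (i + 1) < p i * p (i + 1) + m ∧ p i * p (i + 1) + m < p (i + 1) ^ 2 ∧
    p i * p (i + 1) < p (i + 1) ^ 2 - m ∧ p (i + 1) ^ 2 - m < p (i + 1) ^ 2 := by
  have h1 : p n ≤ p i := p_mono.monotone hi
  have h2 : p i < p (i + 1) := p_mono (by omega)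
  have hodd : ∀ j, 1 ≤ j → p j % 2 = 1 := by
    intro j hj
    rcases (p_prime j).eq_two_or_odd with h | h
    · exfalso
      have := p_ge j
      omega
    · exact h
  have h3 := hodd i (by omega)
  have h4 := hodd (i + 1) (by omega)
  have h5 : p i + 2 ≤ p (i + 1) := by omega
  obtain ⟨g, hg⟩ : ∃ g, p (i + 1) = p i + 2 + g := ⟨p (i + 1) - (p i + 2), by omega⟩
  rw [hg]
  set a := p i with ha
  have e1 : a * (a + 2 + g) = a ^ 2 + 2 * a + a * g := by ring
  have e2 : (a + 2 + g) ^ 2 = a ^ 2 + 2 * a + a * g + (2 * a + a * g + (2 + g) ^ 2) := by ring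
  have e3 : 4 ≤ (2 + g) ^ 2 := by nlinarith
  have e4 : 0 ≤ a * g := Nat.zero_le _
  rw [e1, e2]
  refine ⟨?_, ?_, ?_, ?_, ?_, ?_, ?_, ?_⟩ <;> omega

lemma distinct {n m i : ℕ} (hn : 1 ≤ n) (hi : n ≤ i) (hm0 : 0 < m) (hm : m < 2 * p n)
    (hpar : m % 2 = 0) :
    p i ^ 2 + m ≠ p i * p (i + 1) - m ∧ p i * p (i + 1) + m ≠ p (i + 1) ^ 2 - m := by
  have hb := between hn hi hm0 hm hpar
  have h1 : p n ≤ p i := p_mono.monotone hi
  have h2 : p i < p (i + 1) := p_mono (by omega)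
  have hodd : ∀ j, 1 ≤ j → p j % 2 = 1 := by
    intro j hj
    rcases (p_prime j).eq_two_or_odd with h | h
    · exfalso
      have := p_ge j
      omega
    · exact h
  have h3 := hodd i (by omega)
  have h4 := hodd (i + 1) (by omega)
  -- a prime `a` which is odd, divides `2 m` and satisfies `m < 2 a` is `m`
  have key : ∀ a, a.Prime → a % 2 = 1 → p n ≤ a → ¬ a ∣ 2 * m := by
    intro a ha hao han hd
    rcases (Nat.Prime.dvd_mul ha).1 hd with h | h
    · have := (Nat.prime_dvd_prime_iff_eq ha Nat.prime_two).1 h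
      omega
    · obtain ⟨c, hc⟩ := h
      have hc1 : c = 1 := by
        rcases Nat.lt_or_ge c 2 with h5 | h5
        · interval_cases c
          · omega
          · rfl
        · exfalso
          nlinarith
      rw [hc1, mul_one] at hc
      omega
  constructor
  · intro h
    have e : p i * p (i + 1) = p i * p i + 2 * m := by
      have : p i ^ 2 = p i * p i := sq _
      omega
    apply key (p i) (p_prime i) h3 h1
    have e2 : p i ∣ p i * p i + 2 * m := by
      rw [← e]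
      exact dvd_mul_right _ _
    exact (Nat.dvd_add_right (dvd_mul_right _ _)).1 e2
  · intro h
    have e : p (i + 1) * p (i + 1) = p i * p (i + 1) + 2 * m := by
      have : p (i + 1) ^ 2 = p (i + 1) * p (i + 1) := sq _
      omega
    apply key (p (i + 1)) (p_prime _) h4 (by omega)
    have e2 : p (i + 1) ∣ p i * p (i + 1) + 2 * m := by
      rw [← e]
      exact dvd_mul_right _ _
    exact (Nat.dvd_add_right (dvd_mul_left _ _)).1 e2

/-- **Four almost primes between the squares of consecutive primes.** -/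
theorem result (h : ℕ) : ∃ (κ c : ℝ) (R : ℕ), 0 < κ ∧ 0 < c ∧ ∀ (t : ℕ) (ε : ℝ), 0 < ε →
    ∃ B n₀ : ℕ, ∀ n : ℕ, n₀ ≤ n →
      c * (p n / Real.log (p n) ^ ((h + 1) * (h + 2))) ≤ ((Common n h κ).ncard : ℝ) ∧
      (∀ m ∈ Common n h κ, ∀ i j, n ≤ i → i ≤ j → j ≤ n + h → m < p i * p j ∧
        (p i * p j + m).primeFactorsList.length ≤ R ∧
        (p i * p j - m).primeFactorsList.length ≤ R) ∧
      (∀ m ∈ Common n h κ, ∀ i, n ≤ i → i + 1 ≤ n + h →
        p i ^ 2 < p i ^ 2 + m ∧ p i ^ 2 + m < p i * p (i + 1) ∧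
        p i ^ 2 < p i * p (i + 1) - m ∧ p i * p (i + 1) - m < p i * p (i + 1) ∧
        p i * p (i + 1) < p i * p (i + 1) + m ∧ p i * p (i + 1) + m < p (i + 1) ^ 2 ∧
        p i * p (i + 1) < p (i + 1) ^ 2 - m ∧ p (i + 1) ^ 2 - m < p (i + 1) ^ 2 ∧
        p i ^ 2 + m ≠ p i * p (i + 1) - m ∧ p i * p (i + 1) + m ≠ p (i + 1) ^ 2 - m) ∧
      ∀ S ⊆ Common n h κ,
        ({m ∈ S | ¬ InProgression (t + 1) (Real.log (p n) ^ B) S m}.ncard : ℝ) ≤
          ε * ((Common n h κ).ncard : ℝ) := by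
  obtain ⟨κ, c, hκ0, hκ1, hc, H⟩ := formsU ((h + 1) * (h + 2))
  obtain ⟨R, hR⟩ := exists_nat_gt (((2 * (h + 1) + 3 : ℕ) : ℝ) / κ)
  refine ⟨κ, c, R, hκ0, hc, ?_⟩
  intro t ε hε
  obtain ⟨B, N₀, h1⟩ := H t ε hε
  -- `X ^ κ ≥ 2` for large `X`
  have ht : Tendsto (fun X : ℕ => (X : ℝ) ^ κ) atTop atTop :=
    (tendsto_rpow_atTop hκ0).comp tendsto_natCast_atTop_atTop
  obtain ⟨X1, hX1⟩ := (ht.eventually_ge_atTop 2).exists_forall_of_atTop
  refine ⟨B, max (max N₀ X1) ((h + 1) * (h + 2) + 3), ?_⟩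
  intro n hn
  have g1 : N₀ ≤ n := (le_max_left _ _).trans ((le_max_left _ _).trans hn)
  have g2 : X1 ≤ n := (le_max_right _ _).trans ((le_max_left _ _).trans hn)
  have g3 : (h + 1) * (h + 2) + 3 ≤ n := (le_max_right _ _).trans hn
  have hpn := p_ge n
  have h2 := h1 (p n) (2 * p n - 1) (by omega) (by omega) (by
      have : 2 * p n ≤ p n * p n := Nat.mul_le_mul_right _ (by omega)
      rw [sq]
      omega) (Bool × Sym2 (Fin (h + 1))) (sg h) (cc n h) (card_eq h) (sg_signs h)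
    (adm n h (by omega))
  rw [← common_eq n h κ] at h2
  have hpar : ∀ m ∈ Common n h κ, m % 2 = 0 := by
    intro m hm
    by_contra hodd
    have h4 : p n % 2 = 1 := by
      rcases (p_prime n).eq_two_or_odd with h | h
      · omega
      · exact h
    have h5 : 2 ∣ p n * p n + m := by
      have : (p n * p n) % 2 = 1 := by rw [Nat.mul_mod, h4]
      omega
    have h6 := hm.2.2 n n le_rfl le_rfl (by omega) 2 Nat.prime_two (Or.inl h5)
    have h7 := hX1 (2 * p n - 1) (by omega)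
    push_cast at h6
    linarith
  refine ⟨h2.1, ?_, ?_, h2.2⟩
  · intro m hm i j hi hij hj
    have hm2 := hm.2.1
    have hb : m < p i * p j := by
      refine lt_of_lt_of_le (big n hm2) ?_
      exact Nat.mul_le_mul (p_mono.monotone hi) (p_mono.monotone (by omega))
    have hup : ∀ j, j ≤ n + h → p j ≤ (2 * p n - 1) ^ (h + 1) := by
      intro j hj
      calc p j ≤ p (n + h) := p_mono.monotone hj
        _ ≤ 2 ^ h * p n := p_add_le n h
        _ ≤ (2 * p n - 1) ^ h * (2 * p n - 1) :=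
            Nat.mul_le_mul (Nat.pow_le_pow_left (by omega) h) (by omega)
        _ = (2 * p n - 1) ^ (h + 1) := by ring
    have hup2 : p i * p j + m ≤ (2 * p n - 1) ^ (2 * (h + 1) + 3) := by
      have e1 : p i * p j ≤ (2 * p n - 1) ^ (h + 1) * (2 * p n - 1) ^ (h + 1) :=
        Nat.mul_le_mul (hup i (by omega)) (hup j hj)
      have e2 : p i * p j + m ≤ 2 * ((2 * p n - 1) ^ (h + 1) * (2 * p n - 1) ^ (h + 1)) := by
        omega
      have e3 : 2 ≤ (2 * p n - 1) ^ 3 := by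
        calc 2 ≤ 2 * p n - 1 := by omega
          _ = (2 * p n - 1) ^ 1 := (pow_one _).symm
          _ ≤ (2 * p n - 1) ^ 3 := Nat.pow_le_pow_right (by omega) (by norm_num)
      calc p i * p j + m ≤ 2 * ((2 * p n - 1) ^ (h + 1) * (2 * p n - 1) ^ (h + 1)) := e2
        _ ≤ (2 * p n - 1) ^ 3 * ((2 * p n - 1) ^ (h + 1) * (2 * p n - 1) ^ (h + 1)) :=
            Nat.mul_le_mul_right _ e3
        _ = (2 * p n - 1) ^ (2 * (h + 1) + 3) := by ring
    refine ⟨hb, ?_, ?_⟩
    · exact len_of hκ0 (by omega) (by omega) hup2 hR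
        (fun q hq hd => hm.2.2 i j hi hij hj q hq (Or.inl hd))
    · exact len_of hκ0 (by omega) (by omega) (by omega) hR
        (fun q hq hd => hm.2.2 i j hi hij hj q hq (Or.inr hd))
  · intro m hm i hi hi2
    have hb := between (by omega) hi hm.1 hm.2.1 (hpar m hm)
    have hd := distinct (by omega) hi hm.1 hm.2.1 (hpar m hm)
    exact ⟨hb.1, hb.2.1, hb.2.2.1, hb.2.2.2.1, hb.2.2.2.2.1, hb.2.2.2.2.2.1, hb.2.2.2.2.2.2.1,
      hb.2.2.2.2.2.2.2, hd.1, hd.2⟩

end Pool.Agent.Results.MP_739ba1_nt.FourAlmostPrimes
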