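import Pool.Agent.Y862.SQ.Main3

set_option autoImplicit false

/-!
# Almost primes around the squares of primes: independent Poisson processes on both sides

Call `m` good if it has at most `2 r` prime factors, all of them larger than `X ^ (1 / r)`, and let `V` be the
product of `1 - 1 / p` over the primes `p ≤ X ^ (1 / r)`, so that `V` has the order of magnitude `r / log X`.
Let the ACTUAL primes `p` run over any interval `(Z, Z + Y]` inside `(X, 2 X]` with `Y ≥ δ X`, and let `k`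
disjoint windows `((p + a) ^ 2 + c, (p + a) ^ 2 + c + L]` be given, next to the square of `p` or to nearby squares
(`a` up to a constant times `log X`), on both sides, of length up to a constant times `log X` (all uniform).
Then the numbers of good integers `m ≠ p ^ 2` in the `k` windows are asymptotically independent Poisson
variables with means `L V`: the total variation distance is at most `ε` once `r ≥ r0(k, δ, x0, ε)` and `X` is
large. In particular the windows right after `p_n ^ 2` and right before `p_(n+1) ^ 2`, between which Brocard's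
conjecture asks for four primes, contain any prescribed number of almost primes with the expected
frequency, over the primes `p_n` and over the primes `p_(n+1)`.

Proof. As for all integers in the place of the primes (MP_bf4c7f_nt, PoissonAroundSquares), the joint binomial
moments are averages of singular series of products of polynomials `(n + a) ^ 2 + s`, now over the
integers `n` prime to all `p ≤ X ^ (1 / r)`, i.e. with the further polynomial `n ^ 2`. The distribution of the
primes in the classes comes from the theorem of Bombieri and Vinogradov, in the form of the fundamental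
lemma at primes of the starting library (H373R2.T7.lam_fund).
Written with helpers 417 (collisions), 406 (small primes, joint Poisson law), 547 (average), 349 (moments),
794 (Poisson law at primes), 809 (all windows), and with those of the first two parts (279, 779, 67, 436,
756, 286, 722, 848, 117, 954, 420, 448, 681, 872, 61, 65, 486, 87, 810).
-/

namespace Pool.Agent.Results.MP_739ba1_nt.PoissonAtPrimeSquares

open Finset

/-- `m` has at most `2 r` prime factors (with multiplicity), all larger than `X ^ (1 / r)` -/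
def Good (r X m : ℕ) : Prop :=
  m.primeFactorsList.length ≤ 2 * r ∧ ∀ p : ℕ, p.Prime → p ∣ m → (X : ℝ) ^ (1 / (r : ℝ)) < (p : ℝ)

open Classical in
/-- the number of the good integers `m ≠ n ^ 2` with `(n + a) ^ 2 + c < m ≤ (n + a) ^ 2 + c + L` -/
noncomputable def N (r X n a : ℕ) (c : ℤ) (L : ℕ) : ℕ :=
  ((Ioc (((n : ℤ) + a) ^ 2 + c) (((n : ℤ) + a) ^ 2 + c + L)).filter
    (fun m => m ≠ (n : ℤ) ^ 2 ∧ Good r X m.toNat)).card

/-- the product of `1 - 1 / p` over the primes `p ≤ X ^ (1 / r)` -/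
noncomputable def V (r X : ℕ) : ℝ :=
  ∏ p ∈ (Icc 1 ⌊(X : ℝ) ^ (1 / (r : ℝ))⌋₊).filter Nat.Prime, (1 - 1 / (p : ℝ))

/-- `k` windows, the `j`-th being `(c j, c j + L j]` inside `[-M, M]`, attached to the square
`(n + a j) ^ 2` with `a j ≤ M`; windows attached to the same square are disjoint -/
def Windows {k : ℕ} (M : ℕ) (a : Fin k → ℕ) (c : Fin k → ℤ) (L : Fin k → ℕ) : Prop :=
  (∀ j, a j ≤ M ∧ -(M : ℤ) ≤ c j ∧ c j + L j ≤ M) ∧
  ∀ i j, i ≠ j → a i = a j → c i + L i ≤ c j ∨ c j + L j ≤ c i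

lemma length_le (z : ℝ) (hz : 0 < z) (L : List ℕ) (hL : ∀ p ∈ L, z ≤ (p : ℝ)) :
    z ^ L.length ≤ (L.prod : ℝ) := by
  induction L with
  | nil => simp
  | cons a l ih =>
    rw [List.length_cons, List.prod_cons, pow_succ, Nat.cast_mul]
    have h1 := ih (fun p hp => hL p (List.mem_cons_of_mem _ hp))
    have h2 := hL a List.mem_cons_self
    have h3 : 0 < z ^ l.length := by positivity
    calc z ^ l.length * z ≤ (l.prod : ℝ) * a := by
          apply mul_le_mul h1 h2 hz.le (h3.le.trans h1)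
      _ = _ := by ring

/-- good integers are the sifted ones -/
lemma good_iff (r X m : ℕ) (hr : 1 ≤ r) (hX : 1 ≤ X) (h5 : 5 < (X : ℝ) ^ (1 / (r : ℝ))) (hm : 1 ≤ m)
    (hmX : m ≤ 5 * X ^ 2) :
    Good r X m ↔ ∀ p ∈ Pool.Agent.Y862.SQ.pr ⌊(X : ℝ) ^ (1 / (r : ℝ))⌋₊, ¬ p ∣ m := by
  have hz0 : 0 ≤ (X : ℝ) ^ (1 / (r : ℝ)) := by positivity
  constructor
  · rintro ⟨-, h2⟩ p hp hd
    rw [Pool.Agent.Y862.SQ.pr, mem_filter, mem_Icc] at hp
    have h3 := h2 p hp.2 hd
    have h4 : (p : ℝ) ≤ (X : ℝ) ^ (1 / (r : ℝ)) :=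
      (Nat.le_floor_iff hz0).1 hp.1.2
    linarith
  · intro h
    have hbig : ∀ p : ℕ, p.Prime → p ∣ m → (X : ℝ) ^ (1 / (r : ℝ)) < (p : ℝ) := by
      intro p hp hd
      by_contra hcon
      push Not at hcon
      refine h p ?_ hd
      rw [Pool.Agent.Y862.SQ.pr, mem_filter, mem_Icc]
      exact ⟨⟨hp.one_lt.le, Nat.le_floor hcon⟩, hp⟩
    refine ⟨?_, hbig⟩
    by_contra hcon
    push Not at hcon
    obtain ⟨z, hz⟩ : ∃ z : ℝ, z = (X : ℝ) ^ (1 / (r : ℝ)) := ⟨_, rfl⟩
    rw [← hz] at h5 hbig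
    have h1 := length_le z (by linarith) m.primeFactorsList (fun p hp =>
      (hbig p (Nat.prime_of_mem_primeFactorsList hp) (Nat.dvd_of_mem_primeFactorsList hp)).le)
    rw [Nat.prod_primeFactorsList (by omega)] at h1
    have h2 : z ^ (2 * r + 1) ≤ (m : ℝ) := (pow_le_pow_right₀ (by linarith) (by omega)).trans h1
    have h3 : z ^ r = X := by
      rw [hz, ← Real.rpow_natCast, ← Real.rpow_mul (Nat.cast_nonneg X), one_div,
        inv_mul_cancel₀ (by positivity), Real.rpow_one]
    have h4 : z ^ (2 * r + 1) = (X : ℝ) ^ 2 * z := by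
      rw [pow_succ, mul_comm 2 r, pow_mul, h3]
    rw [h4] at h2
    have h6 : (m : ℝ) ≤ 5 * (X : ℝ) ^ 2 := by exact_mod_cast hmX
    have h7 : (1 : ℝ) ≤ (X : ℝ) ^ 2 := by
      have : (1 : ℝ) ≤ X := by exact_mod_cast hX
      nlinarith
    nlinarith

/-- the numbers of the good integers are the numbers of the sifted shifts -/
lemma N_eq (r X n a : ℕ) (c : ℤ) (L : ℕ) (hr : 1 ≤ r) (hX : 1 ≤ X)
    (h5 : 5 < (X : ℝ) ^ (1 / (r : ℝ))) (h1 : 0 ≤ ((n : ℤ) + a) ^ 2 + c)
    (h2 : ((n : ℤ) + a) ^ 2 + c + L ≤ 5 * X ^ 2) :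
    N r X n a c L = Pool.Agent.Y862.SQ.Nq ⌊(X : ℝ) ^ (1 / (r : ℝ))⌋₊ a c L n := by
  classical
  unfold N Pool.Agent.Y862.SQ.Nq
  obtain ⟨q, hq⟩ : ∃ q : ℤ, q = ((n : ℤ) + a) ^ 2 := ⟨_, rfl⟩
  rw [← hq] at h1 h2 ⊢
  have key : ∀ s ∈ Ioc c (c + L), (Good r X (q + s).toNat ↔
      ∀ p ∈ Pool.Agent.Y862.SQ.pr ⌊(X : ℝ) ^ (1 / (r : ℝ))⌋₊, ¬ (p : ℤ) ∣ q + s) := by
    intro s hs
    rw [mem_Ioc] at hs
    have e : (((q + s).toNat : ℕ) : ℤ) = q + s := Int.toNat_of_nonneg (by omega)
    have hle : (q + s).toNat ≤ 5 * X ^ 2 := by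
      have : (((q + s).toNat : ℕ) : ℤ) ≤ ((5 * X ^ 2 : ℕ) : ℤ) := by
        rw [e]
        push_cast
        omega
      exact_mod_cast this
    rw [good_iff r X (q + s).toNat hr hX h5 (by omega) hle]
    constructor
    · intro h p hp hd
      refine h p hp ?_
      rw [← e] at hd
      exact_mod_cast hd
    · intro h p hp hd
      refine h p hp ?_
      rw [← e]
      exact_mod_cast hd
  symm
  apply Finset.card_bij (fun s _ => q + s)
  · intro s hs
    rw [mem_filter] at hs
    rw [mem_filter]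
    refine ⟨?_, hs.2.1, (key s hs.1).2 hs.2.2⟩
    have := mem_Ioc.1 hs.1
    rw [mem_Ioc]
    omega
  · intro x _ y _ hxy
    omega
  · intro m hm
    rw [mem_filter, mem_Ioc] at hm
    refine ⟨m - q, ?_, by omega⟩
    have hmem : m - q ∈ Ioc c (c + L) := by
      rw [mem_Ioc]
      omega
    have h3 : q + (m - q) = m := by ring
    rw [mem_filter]
    refine ⟨hmem, ?_, (key _ hmem).1 ?_⟩
    · rw [h3]
      exact hm.2.1
    · rw [h3]
      exact hm.2.2

open Classical in
/-- **Almost primes around the squares of primes are distributed like independent Poisson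
processes.** -/
theorem result (k : ℕ) (δ x0 ε : ℝ) (hδ : 0 < δ) (hε : 0 < ε) :
    ∃ r0 : ℕ, ∀ r : ℕ, r0 ≤ r → ∃ X0 : ℕ, ∀ X : ℕ, X0 ≤ X → ∀ Z Y : ℕ, X ≤ Z → Z + Y ≤ 2 * X →
      δ * X ≤ Y → ∀ M : ℕ, M * V r X ≤ x0 →
      ∀ (a : Fin k → ℕ) (c : Fin k → ℤ) (L : Fin k → ℕ), Windows M a c L →
      ∀ A : Finset (Fin k → ℕ),
        |((((Ioc Z (Z + Y)).filter Nat.Prime).filter
            (fun p => (fun j => N r X p (a j) (c j) (L j)) ∈ A)).card : ℝ) -
          ((Ioc Z (Z + Y)).filter Nat.Prime).card *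
            ∑ v ∈ A, ∏ j, (Real.exp (-(L j * V r X)) * (L j * V r X) ^ v j / (v j).factorial)| ≤
          ε * ((Ioc Z (Z + Y)).filter Nat.Prime).card := by
  obtain ⟨r0, h0⟩ := Pool.Agent.Y862.SQ.t_PK k δ x0 ε hδ hε
  obtain ⟨c', C, hc, hC, hV⟩ := Pool.Agent.Y810.SQ.V1_bounds
  refine ⟨r0 + 1, ?_⟩
  intro r hr
  obtain ⟨X1, h1⟩ := h0 r (by omega)
  have hr1 : 1 ≤ r := by omega
  have hrr : (1 : ℝ) ≤ r := by exact_mod_cast hr1
  have hrpos : (0 : ℝ) < r := by linarith
  have hpow : Filter.Tendsto (fun X : ℕ => (X : ℝ) ^ (1 / (r : ℝ))) Filter.atTop Filter.atTop :=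
    (tendsto_rpow_atTop (by positivity)).comp tendsto_natCast_atTop_atTop
  have hlog : Filter.Tendsto (fun X : ℕ => Real.log (X : ℝ) / (X : ℝ)) Filter.atTop (nhds 0) := by
    have h2 : Filter.Tendsto (fun x : ℝ => Real.log x / x) Filter.atTop (nhds 0) := by
      simpa using Real.tendsto_pow_log_div_mul_add_atTop 1 0 1 one_ne_zero
    exact h2.comp tendsto_natCast_atTop_atTop
  have hδ : (0 : ℝ) < c' / (5 * (|x0| + 1)) := by positivity
  have hev : ∀ᶠ X : ℕ in Filter.atTop, (6 : ℝ) < (X : ℝ) ^ (1 / (r : ℝ)) ∧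
      Real.log (X : ℝ) / X < c' / (5 * (|x0| + 1)) ∧ 4 ≤ X ∧ X1 ≤ X :=
    (hpow.eventually_gt_atTop _).and ((hlog.eventually_lt_const hδ).and
      ((Filter.eventually_ge_atTop 4).and (Filter.eventually_ge_atTop X1)))
  obtain ⟨X0, hX0⟩ := Filter.eventually_atTop.1 hev
  refine ⟨X0, ?_⟩
  intro X hX Z Y hXZ hZY hXY M hM a c L hW A
  obtain ⟨g1, g2, g3, g4⟩ := hX0 X hX
  have hX1 : (1 : ℝ) ≤ X := by exact_mod_cast (by omega : 1 ≤ X)
  have hXpos : (0 : ℝ) < X := by linarith
  obtain ⟨y, hy⟩ : ∃ y : ℕ, y = ⌊(X : ℝ) ^ (1 / (r : ℝ))⌋₊ := ⟨_, rfl⟩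
  have hVeq : V r X = Pool.Agent.Y862.SQ.V1 y := by
    rw [hy]
    rfl
  have hmain := h1 X g4 Z Y hXZ hZY hXY M (by rw [← hy, ← hVeq]; exact hM) a c L hW A
  rw [← hy, ← hVeq] at hmain
  have hy5 : 5 ≤ y := by
    rw [hy]
    apply Nat.le_floor
    push_cast
    linarith
  have hyX : (y : ℝ) ≤ X := by
    rw [hy]
    refine (Nat.floor_le (by positivity)).trans ?_
    calc (X : ℝ) ^ (1 / (r : ℝ)) ≤ (X : ℝ) ^ (1 : ℝ) := by
          apply Real.rpow_le_rpow_of_exponent_le hX1
          rw [div_le_one hrpos]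
          exact hrr
      _ = X := Real.rpow_one _
  have hyr : (1 : ℝ) < y := by exact_mod_cast (by omega : 1 < y)
  have hlogy : 0 < Real.log y := Real.log_pos hyr
  -- the windows are short
  have hM5 : 5 * (M : ℝ) ≤ X := by
    have h2 := (hV y (by omega)).1
    rw [← hVeq] at h2
    have h3 : (M : ℝ) * (c' / Real.log y) ≤ |x0| :=
      ((mul_le_mul_of_nonneg_left h2 (Nat.cast_nonneg M)).trans hM).trans (le_abs_self x0)
    have h4 : (M : ℝ) * c' ≤ |x0| * Real.log y := by
      have h5 := mul_le_mul_of_nonneg_right h3 hlogy.le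
      have h6 : (M : ℝ) * (c' / Real.log y) * Real.log y = M * c' := by
        field_simp
      linarith
    have h5 : Real.log y ≤ Real.log X := Real.log_le_log (by linarith) hyX
    have h6 : Real.log (X : ℝ) * (5 * (|x0| + 1)) < c' * X := by
      rw [div_lt_div_iff₀ hXpos (by positivity)] at g2
      exact g2
    have h7 : 0 ≤ |x0| := abs_nonneg x0
    have h8 : |x0| * Real.log y ≤ |x0| * Real.log X := mul_le_mul_of_nonneg_left h5 h7
    have h9 : 0 < Real.log (X : ℝ) := hlogy.trans_le h5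
    have h10 : 5 * (M : ℝ) * c' ≤ X * c' := by nlinarith
    exact le_of_mul_le_mul_right h10 hc
  have hM5' : 5 * M ≤ X := by exact_mod_cast hM5
  have hfilt : ((Ioc Z (Z + Y)).filter Nat.Prime).filter
        (fun p => (fun j => N r X p (a j) (c j) (L j)) ∈ A) =
      ((Ioc Z (Z + Y)).filter Nat.Prime).filter
        (fun n => (fun j => Pool.Agent.Y862.SQ.Nq y (a j) (c j) (L j) n) ∈ A) := by
    apply Finset.filter_congr
    intro n hn
    rw [mem_filter, mem_Ioc] at hn
    replace hn := hn.1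
    have heq : (fun j => N r X n (a j) (c j) (L j)) =
        (fun j => Pool.Agent.Y862.SQ.Nq y (a j) (c j) (L j) n) := by
      funext j
      obtain ⟨w1, w2, w3⟩ := hW.1 j
      rw [hy]
      have hn1 : (X : ℤ) + 1 ≤ (n : ℤ) := by exact_mod_cast (by omega : X + 1 ≤ n)
      have hn2 : (n : ℤ) ≤ 2 * (X : ℤ) := by exact_mod_cast (by omega : n ≤ 2 * X)
      have ha : (a j : ℤ) ≤ (M : ℤ) := by exact_mod_cast w1
      have ha0 : (0 : ℤ) ≤ (a j : ℤ) := Int.natCast_nonneg _
      have hMX : 5 * (M : ℤ) ≤ (X : ℤ) := by exact_mod_cast hM5'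
      have hM0 : (0 : ℤ) ≤ (M : ℤ) := Int.natCast_nonneg _
      have hX4 : (4 : ℤ) ≤ (X : ℤ) := by exact_mod_cast g3
      apply N_eq r X n (a j) (c j) (L j) hr1 (by omega) (by linarith)
      · nlinarith
      · have h2 : ((n : ℤ) + a j) ≤ 2 * X + M := by linarith
        have h3 : ((n : ℤ) + a j) ^ 2 ≤ (2 * X + M) ^ 2 := by
          apply pow_le_pow_left₀ (by linarith) h2
        nlinarith
    rw [heq]
  rw [hfilt]
  exact hmain

end Pool.Agent.Results.MP_739ba1_nt.PoissonAtPrimeSquares
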