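import Pool.Agent.Y816.PD.UniJ

set_option autoImplicit false

/-!
# Almost primes with restricted digits between the squares of consecutive primes

For every large `n` and every admissible `H` the `m` for which all `m + h`, `h ∈ H`, lie between the squares of
the consecutive primes `p_n` and `p_(n+1)`, and whose `i`-th digit in base `b` belongs to an arbitrary set
`A i` for all `i < K`, are considered; `K` is the integer part of `log_b ((p_(n+1) ^ 2 - p_n ^ 2) / 3)`.
-/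

namespace Pool.Agent.Results.MP_739ba1_nt.RestrictedDigits

open Finset Filter
open Pool.Agent.Y816.PD (NA DC AT PT)

/-- The integers strictly between the squares of the consecutive primes `p_n` and `p_(n+1)` (`p_0 = 2`). -/
def Int (n : ℕ) : Set ℕ := {m | Nat.nth Nat.Prime n ^ 2 < m ∧ m < Nat.nth Nat.Prime (n + 1) ^ 2}

/-- **Almost prime tuples with restricted digits between the squares of consecutive primes.** -/
theorem result (H : Finset ℕ) (hH : ∀ p : ℕ, p.Prime → ∃ m : ℕ, ∀ h ∈ H, ¬ p ∣ m + h) (k : ℕ)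
    (hk : H.card = k) (hk1 : 1 ≤ k) :
    ∃ c : ℝ, 0 < c ∧ ∃ r₀ : ℕ, 2 ≤ r₀ ∧ ∀ r : ℕ, r₀ ≤ r → ∀ b : ℕ, 2 ≤ b → ∃ κ C : ℝ, 0 < κ ∧ 0 < C ∧
      ∀ᶠ n : ℕ in atTop, ∀ K : ℕ,
        K = Nat.log b ((Nat.nth Nat.Prime (n + 1) ^ 2 - Nat.nth Nat.Prime n ^ 2) / 3) →
        ∀ A : ℕ → Finset ℕ, (∀ i < K, A i ⊆ range b) → (b : ℝ) ^ K ≤ Real.exp (c * K) * NA K A →
        ((∃ d ∈ A 0, ∀ h ∈ H, (d + h).Coprime b) →
          κ * NA K A / (K : ℝ) ^ k ≤ DC b K A (AT H (Int n) r (b ^ K))) ∧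
        (DC b K A (PT H (Int n)) : ℝ) ≤ C * NA K A / (K : ℝ) ^ k := by
  have hlt : ∀ n, Nat.nth Nat.Prime n < Nat.nth Nat.Prime (n + 1) := fun n =>
    Nat.nth_strictMono Nat.infinite_setOf_prime (Nat.lt_succ_self n)
  have hge : ∀ n, n ≤ Nat.nth Nat.Prime n := fun n => (Nat.nth_strictMono Nat.infinite_setOf_prime).id_le n
  have hkey : ∀ n, Nat.nth Nat.Prime n ^ 2 + Nat.nth Nat.Prime n ≤ Nat.nth Nat.Prime (n + 1) ^ 2 := by
    intro n
    have h1 := hlt n
    nlinarith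
  apply Pool.Agent.Y816.PD.uni_fam atTop Int (fun n => Nat.nth Nat.Prime n ^ 2)
    (fun n => Nat.nth Nat.Prime (n + 1) ^ 2 - Nat.nth Nat.Prime n ^ 2)
    (fun n => Nat.nth Nat.Prime (n + 1) ^ 2 - Nat.nth Nat.Prime n ^ 2) 2 1 _ _ _ _ _ H hH k hk hk1
  · refine tendsto_atTop_mono (fun n => ?_) tendsto_id
    have h1 := hkey n
    have h2 := hge n
    show n ≤ Nat.nth Nat.Prime (n + 1) ^ 2 - Nat.nth Nat.Prime n ^ 2
    omega
  · exact Eventually.of_forall fun n => ⟨le_rfl, by omega⟩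
  · refine Eventually.of_forall fun n => ?_
    have h1 := hkey n
    exact Nat.pow_le_pow_left (by omega) 2
  · refine Eventually.of_forall fun n m h1 h2 => ⟨h1, ?_⟩
    have h3 := hkey n
    omega
  · refine Eventually.of_forall fun n m hm => ⟨hm.1, ?_⟩
    have h3 := hkey n
    have h4 := hm.2
    omega

end Pool.Agent.Results.MP_739ba1_nt.RestrictedDigits
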